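import Pool.Agent.Helper70_bl.Od11
import Pool.Agent.Helper70_bl.OdDefs

/-!
# MP_868bb7_ag: symmetric motives of trace `-2g` and linear relations between permutations
-/

open CategoryTheory AlgebraicGeometry

universe u v w

namespace Pool.Agent.Results.MP_868bb7_ag.OddMotives

open Pool.Agent.H914 Pool.Agent.H914.VarClass Pool.Agent.H914.VarClass.Obj Pool.Agent.W492.BB
  Pool.Agent.W550.Corr Pool.Agent.TH133 Pool.Agent.TH829.Prime Pool.Agent.TH829.Kim
  Pool.Agent.Helper70_bl

theorem result {k : Type u} [Field k] {𝒱 : VarClass k} (C : TheoryData.{u, v, 0} 𝒱 ℚ)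
    [IsChowProj C] (X : 𝒱.Obj) (p : C.A (X.prod X)) (g : ℕ) (hpd : C.Deg X.dim p)
    (hp : C.comp p p = p) (hs : value C p (snd X X) (fst X X) = p)
    (hg : HasDegree C (value C p (𝟙 X) (𝟙 X)) (-(2 * g : ℚ))) :
    -- (A) modulo an adequate relation `I`
    (∀ I : Family C, IsAdequate C I → List.TFAE [
      Relation C p I (2 * g + 1) (fun _ => 1),
      ∃ n, Relation C p I n (fun _ => 1),
      ∃ n ≤ 6 * g + 8, Dependent C p I n,
      ∃ μ : YoungDiagram, (2, 2 * g + 2) ∉ μ ∧ SchurZero C p I μ,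
      OddExceptional C p I g]) ∧
    -- (B) up to rational equivalence
    List.TFAE [
      Relation C p (ratFam C) (2 * g + 1) (fun _ => 1),
      OddExceptional C p (ratFam C) g,
      ∃ I : Family C, IsAdequate C I ∧ (∀ Z i, ∀ z ∈ I Z i, SmashNilpotent C z) ∧
        OddExceptional C p I g,
      ∀ P : Family C, IsPrime C P → OddExceptional C p P g] ∧
    -- (C) the cycles of `(X, p)`
    (OddExceptional C p (ratFam C) g → ∀ (z : C.A X) (i : ℤ), C.Deg i z →
      C.comp (C.ext (1 : C.A X) z) p = C.ext (1 : C.A X) z → PowZero C z (2 * g)) ∧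
    -- (D) the motive of `X`
    (∀ r : ℕ, HasDegree C (value C (dg C X - p) (𝟙 X) (𝟙 X)) r → ∀ I : Family C,
      IsAdequate C I → Exceptional C (dg C X - p) I r → OddExceptional C p I g →
        IsKimuraFinite C I X) :=
  odd_main C X p g hpd hp hs hg

end Pool.Agent.Results.MP_868bb7_ag.OddMotives
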